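import Pool.Agent.H741.RS.Stm

/-!
# Project RS of helper741: the double commutant step
-/

set_option autoImplicit false
open scoped ComplexConjugate

namespace Pool.Agent.H741.RS

theorem t_BIC : S_BIC := by
  classical
  intro n k G hG U h
  set q : MvPolynomial (Fin n) ℂ → V n → EuclideanSpace ℂ G :=
    fun b w => WithLp.toLp 2 (fun g => conj (ev b (g.1 (U w)))) with hq
  set K : Submodule ℂ (EuclideanSpace ℂ G) :=
    Submodule.span ℂ {x | ∃ b w, b.totalDegree ≤ k ∧ x = q b w} with hK
  have key : ∀ r ∈ K, ∃ c : G → ℂ, ∀ a : MvPolynomial (Fin n) ℂ, a.totalDegree ≤ k → ∀ z : V n,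
      ∑ g : G, r g * ev a (g.1 (U z)) = ∑ g : G, c g * ev a (g.1 z) := by
    intro r hr
    induction hr using Submodule.span_induction with
    | mem x hx =>
      obtain ⟨b, w, hb, rfl⟩ := hx
      refine ⟨fun g => conj (ev b (g.1 w)), fun a ha z => ?_⟩
      have h1 := h a b ha hb z w
      simp only [mul_comm (ev a _)] at h1
      exact h1
    | zero => exact ⟨0, fun a _ z => by simp⟩
    | add x y _ _ hx hy =>
      obtain ⟨c, hc⟩ := hx
      obtain ⟨d, hd⟩ := hy
      refine ⟨c + d, fun a ha z => ?_⟩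
      have h1 := hc a ha z
      have h2 := hd a ha z
      simp only [PiLp.add_apply, Pi.add_apply, add_mul, Finset.sum_add_distrib]
      rw [h1, h2]
    | smul t x _ hx =>
      obtain ⟨c, hc⟩ := hx
      refine ⟨t • c, fun a ha z => ?_⟩
      have h1 := hc a ha z
      simp only [PiLp.smul_apply, Pi.smul_apply, smul_eq_mul, mul_assoc, ← Finset.mul_sum]
      rw [h1]
  obtain ⟨r, hr, r', hr', he⟩ := K.exists_add_mem_mem_orthogonal
    (WithLp.toLp 2 (fun g : G => if g = 1 then (1 : ℂ) else 0) : EuclideanSpace ℂ G)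
  obtain ⟨c, hc⟩ := key r hr
  refine ⟨c, fun P hP z => ?_⟩
  rw [← hc P hP z]
  have h1 : inner ℂ (q P z) r' = 0 :=
    (Submodule.mem_orthogonal K r').1 hr' _ (Submodule.subset_span ⟨P, z, hP, rfl⟩)
  have h2 : ∑ g : G, r' g * ev P (g.1 (U z)) = 0 := by
    rw [← h1, PiLp.inner_apply]
    refine Finset.sum_congr rfl fun g _ => ?_
    rw [RCLike.inner_apply]
    simp only [hq, Complex.conj_conj]
  have h3 : ∀ g : G, (if g = 1 then (1 : ℂ) else 0) = r g + r' g := by
    intro g
    have := congrArg (fun v : EuclideanSpace ℂ G => v g) he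
    simpa using this
  have h4 : ev P (U z) = ∑ g : G, (if g = 1 then (1 : ℂ) else 0) * ev P (g.1 (U z)) := by
    simp only [ite_mul, one_mul, zero_mul]
    rw [Finset.sum_ite_eq' Finset.univ (1 : G) (fun g => ev P (g.1 (U z)))]
    simp
  rw [h4]
  simp only [h3, add_mul, Finset.sum_add_distrib]
  rw [h2, add_zero]

end Pool.Agent.H741.RS

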